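import Pool.Agent.Y577.EV.Stm
import Pool.Agent.H98R2.Nb.N3

set_option autoImplicit false
set_option linter.unusedSectionVars false

/-! Job EV8: reduction to the single blocks (toggling argument). -/

namespace Pool.Agent.Y67.EV.Red

open Finset Pool.Agent.H98R2.Ev Pool.Agent.TH410.KV Pool.Agent.Y577.EV

open Classical in
/-- finite sets of pairs and graphs -/
noncomputable def eqG (V : Type) [Fintype V] [DecidableEq V] : Finset (EV V) ≃ SimpleGraph V where
  toFun := toG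
  invFun := Pool.Agent.H98R2.Nb.N3.ES
  left_inv := Pool.Agent.H98R2.Nb.N3.ES_toG
  right_inv := Pool.Agent.H98R2.Nb.N3.toG_ES

open Classical in
/-- modulo two one may count the bad graphs -/
theorem NN_eq {𝓕 : Fam} {V : Type} [Fintype V] [DecidableEq V] (τ : V → TY 𝓕) (e : EV V) :
    NN 2 τ = ∑ G : SimpleGraph V, if Bad τ G then (1 : ZMod 2) else 0 := by
  have h1 : ∑ G : SimpleGraph V, (if Bad τ G then (1 : ZMod 2) else 0) =
      ∑ S : Finset (EV V), (if Bad τ (toG S) then (1 : ZMod 2) else 0) :=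
    (Equiv.sum_comp (eqG V) (fun G => if Bad τ G then (1 : ZMod 2) else 0)).symm
  rw [h1]
  unfold NN
  have h2 : ∀ S : Finset (EV V), ind 2 τ (toG S) * (-1) ^ S.card =
      1 + (if Bad τ (toG S) then (1 : ZMod 2) else 0) := by
    intro S
    rw [neg_one_two, one_pow, mul_one]
    unfold ind
    split_ifs
    · exact (CharTwo.add_self_eq_zero (1 : ZMod 2)).symm
    · rw [add_zero]
  rw [Finset.sum_congr rfl fun S _ => h2 S, Finset.sum_add_distrib, Finset.sum_const, Finset.card_univ,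
    Fintype.card_finset, nsmul_eq_mul, mul_one]
  have h3 : Fintype.card (EV V) ≠ 0 := (Fintype.card_pos_iff.2 ⟨e⟩).ne'
  have h4 : (2 : ZMod 2) = 0 := by decide
  push_cast
  rw [h4, zero_pow h3, zero_add]

/-! ### The concrete graph -/

/-- the projection to the blocks -/
def pr {b K s : ℕ} : (Fin b × (Fin K → ZMod 2)) ⊕ Fin s → Fin b ⊕ Fin s :=
  Sum.map Prod.fst id

/-- the blow-up -/
def CG {b s : ℕ} (K : ℕ) (G : SimpleGraph (Fin b ⊕ Fin s)) :
    SimpleGraph ((Fin b × (Fin K → ZMod 2)) ⊕ Fin s) where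
  Adj x y := G.Adj (pr x) (pr y) ∨ (x ≠ y ∧ pr x = pr y)
  symm := ⟨by
    rintro x y (h | ⟨h1, h2⟩)
    · exact Or.inl h.symm
    · exact Or.inr ⟨h1.symm, h2.symm⟩⟩
  loopless := ⟨by
    rintro x (h | ⟨h1, _⟩)
    · exact G.loopless.irrefl _ h
    · exact h1 rfl⟩

/-- the types -/
def tau (𝓕 : Fam) (b K s : ℕ) : Fin b ⊕ Fin s → TY 𝓕 :=
  Sum.elim (fun _ : Fin b => (J 2)^[K] (xi : TY 𝓕)) (fun _ : Fin s => (xi : TY 𝓕))

theorem bad_iff {𝓕 : Fam} {b K s : ℕ} (G : SimpleGraph (Fin b ⊕ Fin s)) :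
    Bad (tau 𝓕 b K s) G ↔ HH 𝓕 (CG K G) := by
  classical
  constructor
  · rintro ⟨F, κ, h1, h2⟩
    have h3 : ∀ l : Fin b, ∃ col : Fin F.1.1 → (Fin K → ZMod 2), ∀ a,
        (univ.filter (fun x => κ x = Sum.inl l)).filter (fun x => col x = a) ∈ (xi : TY 𝓕).1 F := by
      intro l
      have h4 : _ ∈ ((J 2)^[K] (xi : TY 𝓕)).1 F := h1 (Sum.inl l)
      exact (mem_iter 2 K xi F _).1 (by convert h4)
    choose col hcol using h3
    let f : Fin F.1.1 → (Fin b × (Fin K → ZMod 2)) ⊕ Fin s := fun x =>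
      Sum.map (fun l => (l, col l x)) id (κ x)
    have hf : ∀ x, pr (f x) = κ x := by
      intro x
      simp only [f, pr]
      rcases κ x with l | y <;> rfl
    refine ⟨F.1, F.2, ⟨⟨f, ?_⟩⟩⟩
    intro x y hxy
    by_cases hk : κ x = κ y
    · right
      refine ⟨fun hfe => ?_, by rw [hf, hf, hk]⟩
      rcases hv : κ x with l | v
      · have hv' : κ y = Sum.inl l := by rw [← hk, hv]
        have h4 := hcol l (col l x) x (by
          simp [hv]) y (by
          simp only [mem_filter, mem_univ, true_and]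
          refine ⟨hv', ?_⟩
          simp only [f, hv, hv', Sum.map_inl, Sum.inl.injEq, Prod.mk.injEq, true_and] at hfe
          exact hfe.symm)
        exact h4 hxy
      · have hv' : κ y = Sum.inr v := by rw [← hk, hv]
        have h4 : _ ∈ (xi : TY 𝓕).1 F := h1 (Sum.inr v)
        exact h4 x (by simp [hv]) y (by simp [hv']) hxy
    · left
      rw [hf, hf]
      exact h2 x y hxy hk
  · rintro ⟨F, hF, ⟨f⟩⟩
    refine ⟨⟨F, hF⟩, fun x => pr (f x), fun v => ?_, fun x y hxy hne => ?_⟩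
    · rcases v with l | v
      · change _ ∈ ((J 2)^[K] (xi : TY 𝓕)).1 ⟨F, hF⟩
        rw [mem_iter]
        refine ⟨fun x => Sum.elim (fun p => p.2) (fun _ => 0) (f x), fun a x hx y hy hxy => ?_⟩
        simp only [mem_filter, mem_univ, true_and] at hx hy
        have h1 : f x = f y := by
          obtain ⟨hx1, hx2⟩ := hx
          obtain ⟨hy1, hy2⟩ := hy
          rcases hfx : f x with p | p
          · rcases hfy : f y with q | q
            · rw [hfx] at hx1 hx2
              rw [hfy] at hy1 hy2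
              simp only [pr, Sum.map_inl, Sum.inl.injEq, Sum.elim_inl] at hx1 hx2 hy1 hy2
              rw [Prod.ext (hx1.trans hy1.symm) (hx2.trans hy2.symm)]
            · rw [hfy] at hy1
              simp [pr] at hy1
          · rw [hfx] at hx1
            simp [pr] at hx1
        have h2 := f.map_rel hxy
        rw [h1] at h2
        exact (CG K G).loopless.irrefl _ h2
      · change _ ∈ (xi : TY 𝓕).1 ⟨F, hF⟩
        intro x hx y hy hxy
        simp only [mem_filter, mem_univ, true_and] at hx hy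
        have h1 : f x = f y := by
          rcases hfx : f x with p | p
          · rw [hfx] at hx
            simp [pr] at hx
          · rcases hfy : f y with q | q
            · rw [hfy] at hy
              simp [pr] at hy
            · rw [hfx] at hx
              rw [hfy] at hy
              simp only [pr, Sum.map_inr, id, Sum.inr.injEq] at hx hy
              rw [hx, hy]
        have h2 := f.map_rel hxy
        rw [h1] at h2
        exact (CG K G).loopless.irrefl _ h2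
    · rcases f.map_rel hxy with h | ⟨_, h⟩
      · exact h
      · exact absurd h hne

/-- the large blocks are pairwise adjacent -/
theorem full_of_HH {𝓕 : Fam} {b K s : ℕ} (hF : ∀ F ∈ 𝓕, ¬ F.2.Colorable (2 ^ K * (b - 1) + s))
    {G : SimpleGraph (Fin b ⊕ Fin s)} (h : HH 𝓕 (CG K G)) (l l' : Fin b) (hl : l ≠ l') :
    G.Adj (Sum.inl l) (Sum.inl l') := by
  classical
  by_contra hG
  obtain ⟨F, hF', ⟨f⟩⟩ := h
  refine hF F hF' ?_
  let c : (Fin b × (Fin K → ZMod 2)) ⊕ Fin s → ({i : Fin b // i ≠ l'} × (Fin K → ZMod 2)) ⊕ Fin s :=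
    Sum.map (fun p => (if h : p.1 = l' then ⟨l, hl⟩ else ⟨p.1, h⟩, p.2)) id
  have hc : ∀ x y, (CG K G).Adj x y → c x ≠ c y := by
    rintro (⟨i, α⟩ | x) (⟨j, β⟩ | y) hxy he
    · simp only [c, Sum.map_inl, Sum.inl.injEq, Prod.mk.injEq] at he
      obtain ⟨he1, rfl⟩ := he
      by_cases hi : i = l' <;> by_cases hj : j = l'
      · rw [hi, hj] at hxy
        exact (CG K G).loopless.irrefl _ hxy
      · rw [dif_pos hi, dif_neg hj, Subtype.mk.injEq] at he1
        rw [hi, ← he1] at hxy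
        rcases hxy with h1 | ⟨_, h1⟩
        · exact hG h1.symm
        · simp only [pr, Sum.map_inl, Sum.inl.injEq] at h1
          exact hl h1.symm
      · rw [dif_neg hi, dif_pos hj, Subtype.mk.injEq] at he1
        rw [hj, he1] at hxy
        rcases hxy with h1 | ⟨_, h1⟩
        · exact hG h1
        · simp only [pr, Sum.map_inl, Sum.inl.injEq] at h1
          exact hl h1
      · rw [dif_neg hi, dif_neg hj, Subtype.mk.injEq] at he1
        rw [he1] at hxy
        exact (CG K G).loopless.irrefl _ hxy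
    · simp [c] at he
    · simp [c] at he
    · simp only [c, Sum.map_inr, id, Sum.inr.injEq] at he
      rw [he] at hxy
      exact (CG K G).loopless.irrefl _ hxy
  have h1 : F.2.Coloring (({i : Fin b // i ≠ l'} × (Fin K → ZMod 2)) ⊕ Fin s) :=
    SimpleGraph.Coloring.mk (fun x => c (f x)) fun {x y} hxy => hc _ _ (f.map_rel hxy)
  have h2 := h1.colorable
  have h3 : Fintype.card (({i : Fin b // i ≠ l'} × (Fin K → ZMod 2)) ⊕ Fin s) =
      2 ^ K * (b - 1) + s := by
    rw [Fintype.card_sum, Fintype.card_prod, Fintype.card_fun, ZMod.card, Fintype.card_fin,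
      Fintype.card_fin, Fintype.card_subtype_compl, Fintype.card_fin, Fintype.card_subtype_eq]
    ring
  rwa [h3] at h2

/-- the homomorphism of the toggling argument -/
theorem hom_tog {b K s : ℕ} (hs : s ≤ 2 ^ K) {G G' : SimpleGraph (Fin b ⊕ Fin s)} (l : Fin b)
    (a : Fin s) (hla : ¬ G.Adj (Sum.inl l) (Sum.inr a))
    (hbb : ∀ i v, G.Adj (Sum.inl i) v → G'.Adj (Sum.inl i) v)
    (hss : ∀ x y : Fin s, x ≠ a → y ≠ a → G.Adj (Sum.inr x) (Sum.inr y) → G'.Adj (Sum.inr x) (Sum.inr y))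
    (hfull : ∀ i i' : Fin b, i ≠ i' → G.Adj (Sum.inl i) (Sum.inl i')) :
    Nonempty (CG K G →g CG K G') := by
  classical
  have hcard : Fintype.card (Fin s) ≤ Fintype.card (Fin K → ZMod 2) := by
    rw [Fintype.card_fun, ZMod.card, Fintype.card_fin, Fintype.card_fin]
    exact hs
  obtain ⟨j⟩ := Function.Embedding.nonempty_of_card_le hcard
  let f : (Fin b × (Fin K → ZMod 2)) ⊕ Fin s → (Fin b × (Fin K → ZMod 2)) ⊕ Fin s :=
    Sum.elim Sum.inl (fun x => if G.Adj (Sum.inl l) (Sum.inr x) then Sum.inr x else Sum.inl (l, j x))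
  have hf1 : ∀ p, f (Sum.inl p) = Sum.inl p := fun _ => rfl
  have hf2 : ∀ x, G.Adj (Sum.inl l) (Sum.inr x) → f (Sum.inr x) = Sum.inr x := by
    intro x hx
    simp only [f, Sum.elim_inr, if_pos hx]
  have hf3 : ∀ x, ¬ G.Adj (Sum.inl l) (Sum.inr x) → f (Sum.inr x) = Sum.inl (l, j x) := by
    intro x hx
    simp only [f, Sum.elim_inr, if_neg hx]
  have hbs : ∀ p y, (CG K G).Adj (Sum.inl p) (Sum.inr y) → (CG K G').Adj (f (Sum.inl p)) (f (Sum.inr y)) := by
    intro p y h
    have h1 : G.Adj (Sum.inl p.1) (Sum.inr y) := by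
      rcases h with h | ⟨_, h⟩
      · exact h
      · simp [pr] at h
    by_cases hy : G.Adj (Sum.inl l) (Sum.inr y)
    · rw [hf1, hf2 y hy]
      exact Or.inl (hbb _ _ h1)
    · rw [hf1, hf3 y hy]
      have h2 : p.1 ≠ l := fun h2 => hy (h2 ▸ h1)
      exact Or.inl (hbb _ _ (hfull _ _ h2))
  refine ⟨⟨f, ?_⟩⟩
  rintro (p | x) (q | y) h
  · rw [hf1, hf1]
    rcases h with h | ⟨h1, h2⟩
    · exact Or.inl (hbb _ _ h)
    · exact Or.inr ⟨h1, h2⟩
  · exact hbs p y h
  · exact (hbs q x h.symm).symm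
  · have h1 : G.Adj (Sum.inr x) (Sum.inr y) := by
      rcases h with h | ⟨h1, h⟩
      · exact h
      · simp only [pr, Sum.map_inr, id, Sum.inr.injEq] at h
        exact absurd (by rw [h]) h1
    have hxy : x ≠ y := fun h2 => by
      rw [h2] at h1
      exact G.loopless.irrefl _ h1
    by_cases hx : G.Adj (Sum.inl l) (Sum.inr x) <;> by_cases hy : G.Adj (Sum.inl l) (Sum.inr y)
    · rw [hf2 x hx, hf2 y hy]
      refine Or.inl (hss x y (fun h3 => hla (h3 ▸ hx)) (fun h3 => hla (h3 ▸ hy)) h1)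
    · rw [hf2 x hx, hf3 y hy]
      exact Or.inl (hbb _ _ hx).symm
    · rw [hf3 x hx, hf2 y hy]
      exact Or.inl (hbb _ _ hy)
    · rw [hf3 x hx, hf3 y hy]
      refine Or.inr ⟨fun h3 => ?_, rfl⟩
      simp only [Sum.inl.injEq, Prod.mk.injEq, true_and] at h3
      exact hxy (j.injective h3)

/-! ### Toggling one pair -/

/-- toggling the pair `u, v` -/
def tog {V : Type} (G : SimpleGraph V) (u v : V) (huv : u ≠ v) : SimpleGraph V where
  Adj x y := (G.Adj x y ∧ s(x, y) ≠ s(u, v)) ∨ (¬ G.Adj x y ∧ s(x, y) = s(u, v))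
  symm := ⟨by
    intro x y h
    rwa [G.adj_comm y x, Sym2.eq_swap]⟩
  loopless := ⟨by
    rintro x (⟨h, _⟩ | ⟨_, h⟩)
    · exact G.loopless.irrefl _ h
    · rcases Sym2.eq_iff.1 h with ⟨h1, h2⟩ | ⟨h1, h2⟩
      · exact huv (h1.symm.trans h2)
      · exact huv (h2.symm.trans h1)⟩

theorem tog_adj {V : Type} (G : SimpleGraph V) (u v : V) (huv : u ≠ v) (x y : V)
    (h : s(x, y) ≠ s(u, v)) : (tog G u v huv).Adj x y ↔ G.Adj x y := by
  change ((G.Adj x y ∧ s(x, y) ≠ s(u, v)) ∨ (¬ G.Adj x y ∧ s(x, y) = s(u, v))) ↔ _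
  tauto

theorem tog_adj' {V : Type} (G : SimpleGraph V) (u v : V) (huv : u ≠ v) (x y : V)
    (h : s(x, y) = s(u, v)) : (tog G u v huv).Adj x y ↔ ¬ G.Adj x y := by
  change ((G.Adj x y ∧ s(x, y) ≠ s(u, v)) ∨ (¬ G.Adj x y ∧ s(x, y) = s(u, v))) ↔ _
  tauto

theorem tog_ne {V : Type} (G : SimpleGraph V) (u v : V) (huv : u ≠ v) : tog G u v huv ≠ G := by
  intro h
  have h1 := tog_adj' G u v huv u v rfl
  rw [h] at h1
  tauto

theorem tog_tog {V : Type} (G : SimpleGraph V) (u v u' v' : V) (huv : u ≠ v) (huv' : u' ≠ v')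
    (hu : u' = u) (hv : v' = v) : tog (tog G u v huv) u' v' huv' = G := by
  subst hu hv
  ext x y
  by_cases h : s(x, y) = s(u', v')
  · rw [tog_adj' _ _ _ _ _ _ h, tog_adj' _ _ _ _ _ _ h, not_not]
  · rw [tog_adj _ _ _ _ _ _ h, tog_adj _ _ _ _ _ _ h]

theorem inl_ne {b s : ℕ} (i : Fin b) (v : Fin b ⊕ Fin s) (x y : Fin s) :
    s((Sum.inl i : Fin b ⊕ Fin s), v) ≠ s(Sum.inr x, Sum.inr y) := by
  intro h
  rcases Sym2.eq_iff.1 h with ⟨h1, _⟩ | ⟨h1, _⟩ <;> cases h1

theorem HH_hom {𝓕 : Fam} {V W : Type} {G : SimpleGraph V} {H : SimpleGraph W} (f : G →g H)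
    (h : HH 𝓕 G) : HH 𝓕 H := by
  obtain ⟨F, hF, ⟨g⟩⟩ := h
  exact ⟨F, hF, ⟨f.comp g⟩⟩

open Classical in
/-- the graphs with a missing pair between the large and the single blocks cancel -/
theorem cancel {𝓕 : Fam} {b K s : ℕ} (hs2 : 2 ≤ s) (hs : s ≤ 2 ^ K)
    (hF : ∀ F ∈ 𝓕, ¬ F.2.Colorable (2 ^ K * (b - 1) + s)) :
    ∑ G ∈ univ.filter (fun G : SimpleGraph (Fin b ⊕ Fin s) =>
      ∃ l x, ¬ G.Adj (Sum.inl l) (Sum.inr x)), (if HH 𝓕 (CG K G) then (1 : ZMod 2) else 0) = 0 := by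
  have hsel : ∀ R : Fin b → Fin s → Prop, ∃ p : Fin s × Fin s, p.1 ≠ p.2 ∧
      ((∃ l x, ¬ R l x) → ∃ l, ¬ R l p.1) := by
    intro R
    have hoth : ∀ x : Fin s, ∃ y, x ≠ y := by
      intro x
      by_cases hx : x = ⟨0, by omega⟩
      · exact ⟨⟨1, by omega⟩, by rw [hx]; simp⟩
      · exact ⟨⟨0, by omega⟩, hx⟩
    by_cases h : ∃ l x, ¬ R l x
    · obtain ⟨l, x, h⟩ := h
      obtain ⟨y, hy⟩ := hoth x
      exact ⟨(x, y), hy, fun _ => ⟨l, h⟩⟩
    · obtain ⟨y, hy⟩ := hoth ⟨0, by omega⟩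
      exact ⟨(⟨0, by omega⟩, y), hy, fun h' => absurd h' h⟩
  choose sel hne hsel using hsel
  have hne' : ∀ R, (Sum.inr (sel R).1 : Fin b ⊕ Fin s) ≠ Sum.inr (sel R).2 := fun R h =>
    hne R (Sum.inr_injective h)
  let RG : SimpleGraph (Fin b ⊕ Fin s) → Fin b → Fin s → Prop := fun G l x =>
    G.Adj (Sum.inl l) (Sum.inr x)
  let T : SimpleGraph (Fin b ⊕ Fin s) → SimpleGraph (Fin b ⊕ Fin s) := fun G =>
    tog G (Sum.inr (sel (RG G)).1) (Sum.inr (sel (RG G)).2) (hne' _)
  have hadj : ∀ G i v, (T G).Adj (Sum.inl i) v ↔ G.Adj (Sum.inl i) v := fun G i v =>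
    tog_adj _ _ _ _ _ _ (inl_ne _ _ _ _)
  have hRG : ∀ G, RG (T G) = RG G := by
    intro G
    funext l x
    exact propext (hadj G _ _)
  have hTT : ∀ G, T (T G) = G := by
    intro G
    refine tog_tog G _ _ _ _ _ _ ?_ ?_
    · rw [hRG]
    · rw [hRG]
  have key : ∀ G : SimpleGraph (Fin b ⊕ Fin s), (∃ l x, ¬ G.Adj (Sum.inl l) (Sum.inr x)) →
      HH 𝓕 (CG K G) → HH 𝓕 (CG K (T G)) := by
    intro G hG h
    obtain ⟨l, hl⟩ := hsel (RG G) hG
    obtain ⟨f⟩ := hom_tog (K := K) hs (G := G) (G' := T G) l (sel (RG G)).1 hl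
      (fun i v hiv => (hadj G i v).2 hiv)
      (fun x y hx hy hxy => by
        refine (tog_adj _ _ _ _ _ _ ?_).2 hxy
        intro h1
        rcases Sym2.eq_iff.1 h1 with ⟨h2, h3⟩ | ⟨h2, h3⟩
        · exact hx (Sum.inr_injective h2)
        · exact hy (Sum.inr_injective h3))
      (fun i i' hi => full_of_HH hF h i i' hi)
    exact HH_hom f h
  refine Finset.sum_involution (fun G _ => T G) ?_ ?_ ?_ ?_
  · intro G hG
    rw [mem_filter] at hG
    have hiff : HH 𝓕 (CG K G) ↔ HH 𝓕 (CG K (T G)) := by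
      refine ⟨key G hG.2, fun h => ?_⟩
      have h1 : ∃ l x, ¬ (T G).Adj (Sum.inl l) (Sum.inr x) := by
        obtain ⟨l, x, h2⟩ := hG.2
        exact ⟨l, x, fun h3 => h2 ((hadj G _ _).1 h3)⟩
      have h2 := key (T G) h1 h
      rwa [hTT] at h2
    have h3 : (if HH 𝓕 (CG K (T G)) then (1 : ZMod 2) else 0) =
        (if HH 𝓕 (CG K G) then (1 : ZMod 2) else 0) := by
      by_cases h4 : HH 𝓕 (CG K G)
      · rw [if_pos h4, if_pos (hiff.1 h4)]
      · rw [if_neg h4, if_neg (fun h5 => h4 (hiff.2 h5))]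
    rw [h3]
    exact CharTwo.add_self_eq_zero _
  · intro G _ _
    exact tog_ne _ _ _ _
  · intro G hG
    rw [mem_filter] at hG ⊢
    refine ⟨mem_univ _, ?_⟩
    obtain ⟨l, x, h2⟩ := hG.2
    exact ⟨l, x, fun h3 => h2 ((hadj G _ _).1 h3)⟩
  · intro G _
    exact hTT G

open Classical in
/-- the remaining graphs are joins -/
theorem rest {𝓕 : Fam} {b K s : ℕ} (hF : ∀ F ∈ 𝓕, ¬ F.2.Colorable (2 ^ K * (b - 1) + s)) :
    ∑ G ∈ univ.filter (fun G : SimpleGraph (Fin b ⊕ Fin s) =>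
      ¬ ∃ l x, ¬ G.Adj (Sum.inl l) (Sum.inr x)), (if HH 𝓕 (CG K G) then (1 : ZMod 2) else 0) =
    ∑ H : SimpleGraph (Fin s), if HH 𝓕 (CG K (jk b H)) then (1 : ZMod 2) else 0 := by
  symm
  refine Finset.sum_of_injOn (fun H => jk b H) ?_ ?_ ?_ ?_
  · intro H _ H' _ h
    ext x y
    have h1 : ∀ H : SimpleGraph (Fin s), (jk b H).Adj (Sum.inr x) (Sum.inr y) ↔ H.Adj x y := by
      intro H
      constructor
      · rintro ⟨_, h2⟩
        exact h2 x y rfl rfl
      · intro h2
        refine ⟨fun h3 => ?_, fun u v hu hv => ?_⟩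
        · have h4 := Sum.inr_injective h3
          rw [h4] at h2
          exact H.loopless.irrefl _ h2
        · rw [← Sum.inr_injective hu, ← Sum.inr_injective hv]
          exact h2
    rw [← h1 H, ← h1 H']
    simp only at h
    rw [h]
  · intro H _
    simp only [coe_filter, mem_univ, true_and, Set.mem_setOf_eq, not_exists, not_not]
    intro l x
    refine ⟨by simp, ?_⟩
    intro u v hu
    cases hu
  · intro G hG hGn
    rw [mem_filter] at hG
    by_contra h
    have h1 : HH 𝓕 (CG K G) := by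
      by_contra h2
      exact h (if_neg h2)
    apply hGn
    refine ⟨G.comap Sum.inr, by simp, ?_⟩
    have h2 : ∀ l x, G.Adj (Sum.inl l) (Sum.inr x) := by
      have := hG.2
      push Not at this
      exact this
    ext x y
    change (x ≠ y ∧ ∀ u v, x = Sum.inr u → y = Sum.inr v → (G.comap Sum.inr).Adj u v) ↔ _
    rcases x with l | x <;> rcases y with l' | y
    · constructor
      · rintro ⟨h3, _⟩
        exact full_of_HH hF h1 l l' fun h4 => h3 (by rw [h4])
      · intro h3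
        exact ⟨h3.ne, fun u v hu => by cases hu⟩
    · constructor
      · intro _
        exact h2 l y
      · intro h3
        exact ⟨h3.ne, fun u v hu => by cases hu⟩
    · constructor
      · intro _
        exact (h2 l' x).symm
      · intro h3
        exact ⟨h3.ne, fun u v _ hv => by cases hv⟩
    · constructor
      · rintro ⟨_, h3⟩
        exact h3 x y rfl rfl
      · intro h3
        refine ⟨h3.ne, fun u v hu hv => ?_⟩
        rw [← Sum.inr_injective hu, ← Sum.inr_injective hv]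
        exact h3
  · intro H _
    rfl

theorem HH_jk {𝓕 : Fam} {b K s : ℕ} (H : SimpleGraph (Fin s)) :
    HH 𝓕 (CG K (jk b H)) ↔ HH 𝓕 (jk (2 ^ K * b) H) := by
  have hcard : Fintype.card (Fin b × (Fin K → ZMod 2)) = 2 ^ K * b := by
    rw [Fintype.card_prod, Fintype.card_fun, ZMod.card, Fintype.card_fin, Fintype.card_fin, mul_comm]
  obtain ⟨ε⟩ : Nonempty (Fin b × (Fin K → ZMod 2) ≃ Fin (2 ^ K * b)) :=
    ⟨Fintype.equivFinOfCardEq hcard⟩
  let e : (Fin b × (Fin K → ZMod 2)) ⊕ Fin s ≃ Fin (2 ^ K * b) ⊕ Fin s := Equiv.sumCongr ε (Equiv.refl _)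
  constructor
  · refine HH_hom ⟨e, ?_⟩
    intro x y h
    refine ⟨fun h1 => ?_, fun u v hu hv => ?_⟩
    · rw [e.injective h1] at h
      exact (CG K (jk b H)).loopless.irrefl _ h
    · have hx : x = Sum.inr u := by
        rcases x with p | x
        · simp [e] at hu
        · simpa [e] using hu
      have hy : y = Sum.inr v := by
        rcases y with p | y
        · simp [e] at hv
        · simpa [e] using hv
      rw [hx, hy] at h
      rcases h with h | ⟨h1, h2⟩
      · exact h.2 u v rfl rfl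
      · simp only [pr, Sum.map_inr, id, Sum.inr.injEq] at h2
        exact absurd (by rw [h2]) h1
  · refine HH_hom ⟨e.symm, ?_⟩
    intro x y h
    have hne : e.symm x ≠ e.symm y := fun h1 => h.1 (e.symm.injective h1)
    by_cases hp : pr (e.symm x) = pr (e.symm y)
    · exact Or.inr ⟨hne, hp⟩
    · left
      refine ⟨hp, fun u v hu hv => h.2 u v ?_ ?_⟩
      · rcases x with x | x
        · simp [e, pr] at hu
        · simpa [e, pr] using hu
      · rcases y with y | y
        · simp [e, pr] at hv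
        · simpa [e, pr] using hv

/-- the derived family -/
theorem bad_xi {𝓕 : Fam} {N s : ℕ} (H : SimpleGraph (Fin s)) :
    Bad (fun _ : Fin s => (xi : TY {F : Σ k : ℕ, SimpleGraph (Fin k) | HH 𝓕 (jk N F.2)})) H ↔
      HH 𝓕 (jk N H) := by
  classical
  constructor
  · rintro ⟨⟨F, hF⟩, κ, h1, h2⟩
    have h3 : ∀ x y, F.2.Adj x y → H.Adj (κ x) (κ y) := by
      intro x y hxy
      refine h2 x y hxy fun h4 => ?_
      exact h1 (κ y) x (by simp [h4]) y (by simp) hxy
    refine HH_hom ⟨Sum.map id κ, ?_⟩ hF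
    rintro x y ⟨h4, h5⟩
    refine ⟨fun h6 => ?_, fun u v hu hv => ?_⟩
    · rcases x with x | x <;> rcases y with y | y
      · simp only [Sum.map_inl, id, Sum.inl.injEq] at h6
        exact h4 (by rw [h6])
      · simp at h6
      · simp at h6
      · simp only [Sum.map_inr, Sum.inr.injEq] at h6
        have h7 := h3 x y (h5 x y rfl rfl)
        rw [h6] at h7
        exact H.loopless.irrefl _ h7
    · rcases x with x | x
      · simp at hu
      · rcases y with y | y
        · simp at hv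
        · simp only [Sum.map_inr, Sum.inr.injEq] at hu hv
          rw [← hu, ← hv]
          exact h3 x y (h5 x y rfl rfl)
  · intro h
    refine ⟨⟨⟨s, H⟩, h⟩, fun x => x, fun v x hx y hy hxy => ?_, fun x y hxy _ => hxy⟩
    simp only [mem_filter, mem_univ, true_and] at hx hy
    rw [hx, hy] at hxy
    exact H.loopless.irrefl _ hxy

theorem t : Pool.Agent.Y577.EV.S_red := by
  classical
  intro 𝓕 b K s hb hs2 hs hF
  have h01 : (⟨0, by omega⟩ : Fin s) ≠ ⟨1, by omega⟩ := by simp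
  have e1 : EV (Fin s) := ⟨s(⟨0, by omega⟩, ⟨1, by omega⟩), fun h => h01 (Sym2.mk_isDiag_iff.1 h)⟩
  have e2 : EV (Fin b ⊕ Fin s) := ⟨s(Sum.inr ⟨0, by omega⟩, Sum.inr ⟨1, by omega⟩),
    fun h => h01 (Sum.inr_injective (Sym2.mk_isDiag_iff.1 h))⟩
  have h1 := NN_eq (tau 𝓕 b K s) e2
  have h2 : ∑ G : SimpleGraph (Fin b ⊕ Fin s), (if Bad (tau 𝓕 b K s) G then (1 : ZMod 2) else 0) =
      ∑ G : SimpleGraph (Fin b ⊕ Fin s), (if HH 𝓕 (CG K G) then (1 : ZMod 2) else 0) := by
    refine Finset.sum_congr rfl fun G _ => ?_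
    by_cases h : Bad (tau 𝓕 b K s) G
    · rw [if_pos h, if_pos (bad_iff G |>.1 h)]
    · rw [if_neg h, if_neg fun h' => h (bad_iff G |>.2 h')]
  have h3 := Finset.sum_filter_add_sum_filter_not (univ : Finset (SimpleGraph (Fin b ⊕ Fin s)))
    (fun G => ∃ l x, ¬ G.Adj (Sum.inl l) (Sum.inr x))
    (fun G => if HH 𝓕 (CG K G) then (1 : ZMod 2) else 0)
  have h4 := cancel (𝓕 := 𝓕) (b := b) hs2 hs hF
  have h5 := rest (𝓕 := 𝓕) (K := K) hF
  have h6 := NN_eq (fun _ : Fin s =>
    (xi : TY {F : Σ k : ℕ, SimpleGraph (Fin k) | HH 𝓕 (jk (2 ^ K * b) F.2)})) e1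
  have h7 : ∑ H : SimpleGraph (Fin s), (if HH 𝓕 (CG K (jk b H)) then (1 : ZMod 2) else 0) =
      ∑ H : SimpleGraph (Fin s), (if Bad (fun _ : Fin s =>
        (xi : TY {F : Σ k : ℕ, SimpleGraph (Fin k) | HH 𝓕 (jk (2 ^ K * b) F.2)})) H
        then (1 : ZMod 2) else 0) := by
    refine Finset.sum_congr rfl fun H _ => ?_
    by_cases h : HH 𝓕 (CG K (jk b H))
    · rw [if_pos h, if_pos ((bad_xi H).2 ((HH_jk H).1 h))]
    · rw [if_neg h, if_neg fun h' => h ((HH_jk H).2 ((bad_xi H).1 h'))]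
  change NN 2 (tau 𝓕 b K s) = _
  rw [h1, h2, ← h3, h4, zero_add, h5, h7, h6]

end Pool.Agent.Y67.EV.Red
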