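import Pool.Agent.Y577.EV.Stm

set_option autoImplicit false

/-! Job EV5: a long window of linear relations forces `f x = 0`. -/

namespace Pool.Agent.Y67.EV.Small

open Finset Pool.Agent.TH410.KV

section Alg

variable {A : Type} [CommRing A] [CharP A 2]

theorem sum_symm (s : Finset ℕ) (g : ℕ → ℕ → A) (hg : ∀ i j, g i j = g j i) :
    ∑ i ∈ s, ∑ j ∈ s, g i j = ∑ i ∈ s, g i i := by
  classical
  have h0 : ∑ i ∈ s, ∑ j ∈ s, g i j = ∑ p ∈ s ×ˢ s, g p.1 p.2 :=
    (Finset.sum_product' s s g).symm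
  rw [h0, ← Finset.diag_union_offDiag, Finset.sum_union (Finset.disjoint_diag_offDiag s)]
  have h1 : ∑ p ∈ s.offDiag, g p.1 p.2 = 0 := by
    refine Finset.sum_involution (fun p _ => p.swap) ?_ ?_ ?_ ?_
    · rintro ⟨i, j⟩ _
      simp only [Prod.swap_prod_mk]
      rw [hg j i]
      exact CharTwo.add_self_eq_zero _
    · rintro ⟨i, j⟩ hp _ h
      rw [mem_offDiag] at hp
      exact hp.2.2 (congrArg Prod.snd h)
    · rintro ⟨i, j⟩ hp
      rw [mem_offDiag] at hp ⊢
      exact ⟨hp.2.1, hp.1, fun h => hp.2.2 h.symm⟩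
    · rintro ⟨i, j⟩ _
      rfl
  rw [h1, add_zero, Finset.sum_diag]

theorem cast_sq (c : ℕ) : (c : A) * c = c := by
  have h2 : (2 : A) = 0 := CharTwo.two_eq_zero
  rcases Nat.even_or_odd' c with ⟨r, rfl | rfl⟩
  · push_cast
    rw [h2]
    ring
  · push_cast
    rw [h2]
    ring

/-- the shifted relations -/
theorem rel {x : A} {N : ℕ} (hL : ∑ k ∈ range (N + 1), (N.choose k : A) * x ^ (2 ^ k) = 0) {M : ℕ}
    (hM : 1 ≤ M) : ∑ k ∈ range (N + 1), (N.choose k : A) * x ^ (M + 2 * (2 ^ k - 1)) = 0 := by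
  have h1 : ∀ k, 1 ≤ 2 ^ k := fun k => Nat.one_le_two_pow
  have h2 : (∑ k ∈ range (N + 1), (N.choose k : A) * x ^ (2 ^ k)) *
      ∑ j ∈ range (N + 1), (N.choose j : A) * x ^ (2 ^ j + M - 2) = 0 := by
    rw [hL, zero_mul]
  rw [Finset.sum_mul_sum] at h2
  have h3 : ∑ i ∈ range (N + 1), ∑ j ∈ range (N + 1), (N.choose i : A) * x ^ (2 ^ i) *
      ((N.choose j : A) * x ^ (2 ^ j + M - 2)) = ∑ i ∈ range (N + 1), ∑ j ∈ range (N + 1),
      (N.choose i : A) * (N.choose j : A) * x ^ (2 ^ i + 2 ^ j + M - 2) := by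
    refine Finset.sum_congr rfl fun i _ => Finset.sum_congr rfl fun j _ => ?_
    have e1 : 2 ^ i + 2 ^ j + M - 2 = 2 ^ i + (2 ^ j + M - 2) := by
      have := h1 j
      have := h1 i
      omega
    rw [e1, pow_add x (2 ^ i)]
    ring
  rw [h3, sum_symm (range (N + 1))
    (fun i j => (N.choose i : A) * (N.choose j : A) * x ^ (2 ^ i + 2 ^ j + M - 2))
    (fun i j => by rw [mul_comm (N.choose i : A), add_comm (2 ^ i)])] at h2
  rw [← h2]
  refine Finset.sum_congr rfl fun k _ => ?_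
  rw [cast_sq]
  have e1 : 2 ^ k + 2 ^ k + M - 2 = M + 2 * (2 ^ k - 1) := by
    have := h1 k
    omega
  rw [e1]

theorem iter_sum (y : A) (N : ℕ) :
    ∑ k ∈ range (N + 1 + 1), ((N + 1).choose k : A) * y ^ (2 ^ k) =
      ∑ k ∈ range (N + 1), (N.choose k : A) * y ^ (2 ^ k) +
      (∑ k ∈ range (N + 1), (N.choose k : A) * y ^ (2 ^ k)) ^ 2 := by
  have h1 : (∑ k ∈ range (N + 1), (N.choose k : A) * y ^ (2 ^ k)) ^ 2 =
      ∑ k ∈ range (N + 1), (N.choose k : A) * y ^ (2 ^ (k + 1)) := by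
    rw [CharTwo.sum_sq]
    refine Finset.sum_congr rfl fun k _ => ?_
    rw [mul_pow, ← pow_mul, ← pow_succ, sq (N.choose k : A), cast_sq]
  have h2 : ∑ k ∈ range (N + 1), (N.choose k : A) * y ^ (2 ^ k) =
      ∑ k ∈ range (N + 1 + 1), (N.choose k : A) * y ^ (2 ^ k) := by
    rw [Finset.sum_range_succ _ (N + 1), Nat.choose_succ_self]
    simp
  rw [h1]
  rw [h2]
  rw [Finset.sum_range_succ' _ (N + 1), Finset.sum_range_succ' _ (N + 1)]
  simp only [Nat.choose_zero_right]
  rw [add_right_comm, ← Finset.sum_add_distrib]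
  congr 1
  refine Finset.sum_congr rfl fun k _ => ?_
  rw [Nat.choose_succ_succ]
  push_cast
  ring

theorem De_pow_apply [Algebra (ZMod 2) A] (y : A) (N : ℕ) :
    (De 2 ^ N) y = ∑ k ∈ range (N + 1), (N.choose k : A) * y ^ (2 ^ k) := by
  induction N with
  | zero => simp
  | succ N ih =>
    rw [pow_succ', Module.End.mul_apply, ih, De_apply, CharTwo.sub_eq_add, iter_sum]

theorem period {x : A} {N : ℕ} (hL : ∑ k ∈ range (N + 1), (N.choose k : A) * x ^ (2 ^ k) = 0) :
    x ^ (2 ^ (2 ^ N)) = x := by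
  letI : Algebra (ZMod 2) A := ZMod.algebra A 2
  haveI : Fact (Nat.Prime 2) := ⟨Nat.prime_two⟩
  exact pow_period 2 (n := N) (e := N) (by rw [De_pow_apply]; exact hL) (Nat.lt_two_pow_self).le

end Alg

/-- a sequence with a linear recursion vanishes if it vanishes on a window -/
theorem window (v c : ℕ → ZMod 2) (N i0 : ℕ) (hN : 1 ≤ N) (hc0 : c 0 = 1) (hcN : c N = 1)
    (hrel : ∀ i, ∑ k ∈ range (N + 1), c k * v (i + (2 ^ k - 1)) = 0)
    (hw : ∀ i, i0 ≤ i → i < i0 + (2 ^ N - 1) → v i = 0) : ∀ i, v i = 0 := by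
  have hp : ∀ k, 1 ≤ 2 ^ k := fun k => Nat.one_le_two_pow
  have hup : ∀ i, i0 ≤ i → v i = 0 := by
    intro i
    induction i using Nat.strong_induction_on with
    | _ i ih =>
      intro hi
      by_cases h : i < i0 + (2 ^ N - 1)
      · exact hw i hi h
      · have h1 := hrel (i - (2 ^ N - 1))
        rw [Finset.sum_range_succ, hcN, one_mul] at h1
        have h2 : ∑ k ∈ range N, c k * v (i - (2 ^ N - 1) + (2 ^ k - 1)) = 0 := by
          refine Finset.sum_eq_zero fun k hk => ?_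
          rw [Finset.mem_range] at hk
          have h3 : 2 ^ k < 2 ^ N := Nat.pow_lt_pow_right (by norm_num) hk
          have h4 := hp k
          rw [ih (i - (2 ^ N - 1) + (2 ^ k - 1)) (by omega) (by omega), mul_zero]
        rw [h2, zero_add] at h1
        have h5 : i - (2 ^ N - 1) + (2 ^ N - 1) = i := by omega
        rwa [h5] at h1
  have hdown : ∀ d i, i0 ≤ i + d → v i = 0 := by
    intro d
    induction d with
    | zero => intro i hi; exact hup i hi
    | succ d ih =>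
      intro i hi
      have h1 := hrel i
      rw [Finset.sum_range_succ', hc0, one_mul] at h1
      have h2 : ∑ k ∈ range N, c (k + 1) * v (i + (2 ^ (k + 1) - 1)) = 0 := by
        refine Finset.sum_eq_zero fun k _ => ?_
        have h4 := hp k
        have h5 : 2 ^ (k + 1) = 2 * 2 ^ k := by ring
        rw [ih (i + (2 ^ (k + 1) - 1)) (by omega), mul_zero]
      rw [h2, zero_add] at h1
      simpa using h1
  intro i
  exact hdown i0 i (by omega)

theorem dec7 : ∀ a b c d e f g : ZMod 2, a + b + c + d = 0 → b + d + e + f = 0 →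
    c + e + f + g = 0 → g = a := by decide

theorem mod7 (e : ℕ) : 2 ^ (2 ^ e) % 7 = 2 ∨ 2 ^ (2 ^ e) % 7 = 4 := by
  induction e with
  | zero => left; norm_num
  | succ e ih =>
    have h1 : 2 ^ (2 ^ (e + 1)) = (2 ^ (2 ^ e)) ^ 2 := by
      rw [← pow_mul, ← pow_succ]
    rw [h1, Nat.pow_mod]
    rcases ih with h | h
    · rw [h]; right; norm_num
    · rw [h]; left; norm_num

theorem bez (e : ℕ) : ∃ a c : ℕ, 14 * a = 1 + (2 ^ (2 ^ e) - 1) * c := by
  obtain ⟨P, hP⟩ : ∃ P, P = 2 ^ (2 ^ e) - 1 := ⟨_, rfl⟩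
  have hQ : 2 ^ (2 ^ e) = P + 1 := by
    have : 1 ≤ 2 ^ (2 ^ e) := Nat.one_le_two_pow
    omega
  rw [← hP]
  by_cases h1 : P ≤ 1
  · have h2 : 2 ≤ 2 ^ (2 ^ e) := by
      calc 2 = 2 ^ 1 := by norm_num
        _ ≤ 2 ^ (2 ^ e) := Nat.pow_le_pow_right (by norm_num) Nat.one_le_two_pow
    have h3 : P = 1 := by omega
    exact ⟨1, 13, by rw [h3]⟩
  · have h2 : Nat.Coprime 2 P := by
      rw [Nat.coprime_two_left]
      have h3 : Even (2 ^ (2 ^ e)) := by
        have : 2 ^ e ≠ 0 := by positivity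
        exact Even.pow_of_ne_zero (by norm_num) this
      rw [hQ] at h3
      rcases Nat.even_or_odd P with h4 | h4
      · exfalso
        have := h4.add_one
        exact (Nat.not_even_iff_odd.2 this) h3
      · exact h4
    have h7 : Nat.Coprime 7 P := by
      rw [Nat.Prime.coprime_iff_not_dvd (by norm_num)]
      intro h3
      have h4 := mod7 e
      rw [hQ] at h4
      omega
    have h14 : Nat.Coprime 14 P := by
      have := Nat.Coprime.mul_left h2 h7
      simpa using this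
    obtain ⟨a, -, ha⟩ := Nat.exists_mul_mod_eq_one_of_coprime h14 (by omega)
    refine ⟨a, 14 * a / P, ?_⟩
    have h5 := Nat.div_add_mod (14 * a) P
    rw [ha] at h5
    omega

theorem t : Pool.Agent.Y577.EV.S_small := by
  intro A _ _ x f n N lo hi hN hL hn h0 hlo hlo1 hhi hW
  obtain ⟨u, hu⟩ : ∃ u : ℕ → ZMod 2, u = fun M => f (x ^ M) := ⟨_, rfl⟩
  have hu' : ∀ M, f (x ^ M) = u M := fun M => by rw [hu]
  simp only [hu'] at hW h0
  -- the relations of u
  have hrel : ∀ M, 1 ≤ M → ∑ k ∈ range (N + 1), (N.choose k : ZMod 2) * u (M + 2 * (2 ^ k - 1)) = 0 := by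
    intro M hM
    have h1 := congrArg f (rel hL hM)
    rw [map_zero, map_sum] at h1
    rw [← h1]
    refine Finset.sum_congr rfl fun k _ => ?_
    rw [← nsmul_eq_mul, ← nsmul_eq_mul, map_nsmul, hu']
  -- the window
  obtain ⟨r, hr1, hr2, hrn⟩ : ∃ r, 1 ≤ r ∧ r ≤ 2 ∧ r ≡ n [MOD 2] := by
    refine ⟨2 - n % 2, by omega, by omega, ?_⟩
    unfold Nat.ModEq
    omega
  obtain ⟨i0, hi0⟩ : ∃ i0, lo = r + 2 * i0 := by
    unfold Nat.ModEq at hlo hrn
    exact ⟨(lo - r) / 2, by omega⟩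
  have hv : ∀ i, u (r + 2 * i) + u (r + 2 * i + 8) + u (r + 2 * i + 12) + u (r + 2 * i + 16) = 0 := by
    refine window (fun i => u (r + 2 * i) + u (r + 2 * i + 8) + u (r + 2 * i + 12) +
      u (r + 2 * i + 16)) (fun k => (N.choose k : ZMod 2)) N i0 hN (by simp) (by simp) ?_ ?_
    · intro i
      have a0 := hrel (r + 2 * i) (by omega)
      have a1 := hrel (r + 2 * i + 8) (by omega)
      have a2 := hrel (r + 2 * i + 12) (by omega)
      have a3 := hrel (r + 2 * i + 16) (by omega)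
      have a4 : ∑ k ∈ range (N + 1), (N.choose k : ZMod 2) * (u (r + 2 * (i + (2 ^ k - 1))) +
          u (r + 2 * (i + (2 ^ k - 1)) + 8) + u (r + 2 * (i + (2 ^ k - 1)) + 12) +
          u (r + 2 * (i + (2 ^ k - 1)) + 16)) =
          ∑ k ∈ range (N + 1), (N.choose k : ZMod 2) * u (r + 2 * i + 2 * (2 ^ k - 1)) +
          ∑ k ∈ range (N + 1), (N.choose k : ZMod 2) * u (r + 2 * i + 8 + 2 * (2 ^ k - 1)) +
          ∑ k ∈ range (N + 1), (N.choose k : ZMod 2) * u (r + 2 * i + 12 + 2 * (2 ^ k - 1)) +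
          ∑ k ∈ range (N + 1), (N.choose k : ZMod 2) * u (r + 2 * i + 16 + 2 * (2 ^ k - 1)) := by
        rw [← Finset.sum_add_distrib, ← Finset.sum_add_distrib, ← Finset.sum_add_distrib]
        refine Finset.sum_congr rfl fun k _ => ?_
        rw [mul_add, mul_add, mul_add, mul_add 2 i, ← add_assoc r,
          add_right_comm (r + 2 * i) _ 8, add_right_comm (r + 2 * i) _ 12,
          add_right_comm (r + 2 * i) _ 16]
      rw [a4, a0, a1, a2, a3]
      simp
    · intro i h1 h2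
      have h3 : 2 ≤ 2 ^ N := by
        calc 2 = 2 ^ 1 := by norm_num
          _ ≤ 2 ^ N := Nat.pow_le_pow_right (by norm_num) hN
      refine hW (r + 2 * i) (by omega) (by omega) ?_
      unfold Nat.ModEq at hrn ⊢
      omega
  have hE : ∀ M, 1 ≤ M → M ≡ n [MOD 2] → u M + u (M + 8) + u (M + 12) + u (M + 16) = 0 := by
    intro M hM hMn
    obtain ⟨i, rfl⟩ : ∃ i, M = r + 2 * i := by
      unfold Nat.ModEq at hMn hrn
      exact ⟨(M - r) / 2, by omega⟩
    exact hv i
  have h28 : ∀ M, 1 ≤ M → M ≡ n [MOD 2] → u (M + 28) = u M := by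
    intro M hM hMn
    have a1 := hE M hM hMn
    have a2 := hE (M + 8) (by omega) (by unfold Nat.ModEq at hMn ⊢; omega)
    have a3 := hE (M + 12) (by omega) (by unfold Nat.ModEq at hMn ⊢; omega)
    exact dec7 _ _ _ _ _ _ _ a1 a2 a3
  have h28a : ∀ M, 1 ≤ M → M ≡ n [MOD 2] → ∀ a, u (M + 28 * a) = u M := by
    intro M hM hMn a
    induction a with
    | zero => simp
    | succ a ih =>
      rw [Nat.mul_succ, ← add_assoc, h28 (M + 28 * a) (by omega)
        (by unfold Nat.ModEq at hMn ⊢; omega), ih]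
  have hQ := period hL
  have hper : ∀ M, 1 ≤ M → ∀ j, u (M + j * (2 ^ (2 ^ N) - 1)) = u M := by
    intro M hM j
    rw [← hu', ← hu', pow_add_period Nat.one_le_two_pow hQ M hM j]
  have h2 : ∀ M, 1 ≤ M → M ≡ n [MOD 2] → u (M + 2) = u M := by
    intro M hM hMn
    obtain ⟨a, c, hac⟩ := bez N
    have e1 := hper (M + 2) (by omega) (2 * c)
    have e2 : M + 2 + 2 * c * (2 ^ (2 ^ N) - 1) = M + 28 * a := by
      have : 28 * a = 2 * (14 * a) := by ring
      rw [this, hac]
      ring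
    rw [e2, h28a M hM hMn a] at e1
    exact e1.symm
  have h2a : ∀ M, 1 ≤ M → M ≡ n [MOD 2] → ∀ j, u (M + 2 * j) = u M := by
    intro M hM hMn j
    induction j with
    | zero => simp
    | succ j ih =>
      rw [Nat.mul_succ, ← add_assoc, h2 (M + 2 * j) (by omega)
        (by unfold Nat.ModEq at hMn ⊢; omega), ih]
  have hz : ∀ M, 1 ≤ M → M ≡ n [MOD 2] → u M = 0 := by
    intro M hM hMn
    rcases le_total M n with h | h
    · obtain ⟨j, hj⟩ : ∃ j, n = M + 2 * j := by
        unfold Nat.ModEq at hMn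
        exact ⟨(n - M) / 2, by omega⟩
      rw [← h2a M hM hMn j, ← hj, h0]
    · obtain ⟨j, hj⟩ : ∃ j, M = n + 2 * j := by
        unfold Nat.ModEq at hMn
        exact ⟨(M - n) / 2, by omega⟩
      rw [hj, h2a n hn rfl j, h0]
  rcases Nat.even_or_odd n with hne | hno
  · have h1 := congrArg f hL
    rw [map_zero, Finset.sum_range_succ', map_add, map_sum] at h1
    have h3 : ∑ k ∈ range N, f ((N.choose (k + 1) : A) * x ^ (2 ^ (k + 1))) = 0 := by
      refine Finset.sum_eq_zero fun k _ => ?_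
      rw [← nsmul_eq_mul, map_nsmul, hu', hz (2 ^ (k + 1)) Nat.one_le_two_pow ?_, smul_zero]
      have h4 : 2 ^ (k + 1) = 2 * 2 ^ k := by ring
      rw [h4]
      obtain ⟨y, hy⟩ := hne
      unfold Nat.ModEq
      omega
    rw [h3, zero_add] at h1
    simpa using h1
  · have h1 := hz 1 le_rfl (by
      obtain ⟨y, hy⟩ := hno
      unfold Nat.ModEq
      omega)
    rw [← hu', pow_one] at h1
    exact h1

end Pool.Agent.Y67.EV.Small
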